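import Pool.Agent.Q74.PD.Stm2

/-! # Project PD: jobs Mup and Tai (total harmonic mass; high layers) -/

set_option autoImplicit false

namespace Pool.Agent.Q196.PD

open Finset Filter Topology
open Pool.Agent.H499R2.ND Pool.Agent.H320R2.PD Pool.Agent.Y856.PD Pool.Agent.Q74.PD

open Classical in
theorem hs_eq_ite (S : Set ℤ) (a b : ℝ) :
    hs S a b = ∑ x ∈ cls Set.univ a b 0 1 0, if x ∈ S then 1 / (x : ℝ) else 0 := by
  unfold hs
  rw [← sum_filter]
  refine sum_congr ?_ fun _ _ => rfl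
  ext x
  rw [mem_filter, mem_cls, mem_cls]
  simp only [Set.mem_univ, true_and]
  tauto

/-- the set of `S_Lat` -/
def Lt (d : ℤ) (A : ℝ) : Set ℤ :=
  {x | ∀ i : ℕ, (i : ℝ) ≤ 9 / 10 * Real.log A → 2 * A < (((Td d)^[i] x : ℤ) : ℝ)}

theorem pos_of_cls {A : ℝ} (hA : 0 < A) {S : Set ℤ} {x : ℤ} (hx : x ∈ cls S (Ul A) (Ur A) 0 1 0) :
    1 ≤ x := by
  rw [mem_cls] at hx
  have h1 : (0 : ℝ) < x := lt_of_lt_of_le (Ul_pos hA) hx.1.1
  have h2 : 0 < x := by exact_mod_cast h1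
  omega

/-- splitting a weighted sum along `Lt` -/
theorem split {d : ℤ} {A : ℝ} (hA : 0 < A) {f g : ℤ → ℝ} {K : ℝ} (hK : 0 ≤ K) (hg : ∀ x, 0 ≤ g x)
    (h1 : ∀ x, 1 ≤ x → x ∉ Lt d A → f x ≤ g x) (h2 : ∀ x, 1 ≤ x → f x ≤ K) :
    ∑ x ∈ cls Set.univ (Ul A) (Ur A) 0 1 0, 1 / (x : ℝ) * f x ≤
      ∑ x ∈ cls Set.univ (Ul A) (Ur A) 0 1 0, 1 / (x : ℝ) * g x + K * hs (Lt d A) (Ul A) (Ur A) := by
  classical
  rw [hs_eq_ite, mul_sum, ← sum_add_distrib]
  refine sum_le_sum fun x hx => ?_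
  have hx1 := pos_of_cls hA hx
  have hx0 : (0 : ℝ) < x := by
    have : (1 : ℝ) ≤ x := by exact_mod_cast hx1
    linarith
  have hinv : 0 ≤ 1 / (x : ℝ) := by positivity
  by_cases hl : x ∈ Lt d A
  · rw [if_pos hl]
    have h3 := h2 x hx1
    have h4 := hg x
    have h5 : 1 / (x : ℝ) * f x ≤ 1 / (x : ℝ) * K := mul_le_mul_of_nonneg_left h3 hinv
    have h6 : 0 ≤ 1 / (x : ℝ) * g x := mul_nonneg hinv h4
    linarith
  · rw [if_neg hl, mul_zero, add_zero]
    exact mul_le_mul_of_nonneg_left (h1 x hx1 hl) hinv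

theorem sum_hs_Pr (d : ℤ) (B : Finset ℤ) (a b : ℝ) :
    ∑ c ∈ B, hs (Pr d c) a b = ∑ x ∈ cls Set.univ a b 0 1 0, 1 / (x : ℝ) * (Vs d B x : ℝ) := by
  classical
  simp only [hs_eq_ite]
  rw [sum_comm]
  refine sum_congr rfl fun x _ => ?_
  rw [← sum_filter, sum_const, nsmul_eq_mul, mul_comm]
  congr 2

theorem sum_hs_Ly (d : ℤ) (B : Finset ℤ) (L M : ℕ) {a b : ℝ} (ha : 0 < a) :
    ∑ l ∈ Ioc L M, hs (Ly d B l) a b ≤
      ∑ x ∈ cls Set.univ a b 0 1 0, 1 / (x : ℝ) * ((Vs d B x - L : ℕ) : ℝ) := by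
  classical
  simp only [hs_eq_ite]
  rw [sum_comm]
  refine sum_le_sum fun x hx => ?_
  rw [mem_cls] at hx
  have hx0 : (0 : ℝ) < x := lt_of_lt_of_le ha hx.1.1
  rw [← sum_filter, sum_const, nsmul_eq_mul, mul_comm]
  refine mul_le_mul_of_nonneg_left ?_ (by positivity)
  have h1 : (Ioc L M).filter (fun l => x ∈ Ly d B l) ⊆ Ioc L (Vs d B x) := by
    intro l hl
    rw [mem_filter, mem_Ioc] at hl
    rw [mem_Ioc]
    exact ⟨hl.1.1, hl.2⟩
  have h2 := card_le_card h1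
  rw [Nat.card_Ioc] at h2
  exact_mod_cast h2

theorem len_ge {A : ℝ} (hA : 1 ≤ A) : Real.log A / 20 ≤ len A := by
  unfold len
  have : Real.log A ≤ Real.log (2 * A) := Real.log_le_log (by linarith) (by linarith)
  linarith

theorem ratio {A : ℝ} (hA : Real.exp 1 ≤ A) :
    0 < len A ∧ 2 / len A * Real.log A ≤ 40 ∧ 2 / len A * (Real.log A / 20 + 1) ≤ 42 := by
  have h0 : (1 : ℝ) ≤ Real.exp 1 := by
    have := Real.add_one_le_exp 1
    linarith
  have h1 := len_ge (A := A) (by linarith)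
  have h2 : 1 ≤ Real.log A := by
    rw [Real.le_log_iff_exp_le (by linarith)]
    exact hA
  have h3 : 0 < len A := by linarith
  refine ⟨h3, ?_, ?_⟩
  · rw [div_mul_eq_mul_div, div_le_iff₀ h3]
    linarith
  · rw [div_mul_eq_mul_div, div_le_iff₀ h3]
    linarith

theorem rpow_small {c ε : ℝ} (hc : 0 < c) (hε : 0 < ε) : ∃ A₀ : ℝ, ∀ A : ℝ, A₀ ≤ A → A ^ (-c) ≤ ε := by
  have h := (tendsto_rpow_neg_atTop hc).eventually (ge_mem_nhds hε)
  exact eventually_atTop.1 h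

theorem c0_pos : 0 < c0 := by
  unfold c0
  have : 0 < Real.log (4 / 3) := Real.log_pos (by norm_num)
  positivity

/-- **Job Mup.** -/
theorem mup (hv : S_Vis) (hM : S_Mas) (hL : S_Lat) : S_Mup := by
  intro d hd hd3 ε hε
  obtain ⟨A₁, h1⟩ := hv d hd
  have hlog2 : 0 < Real.log 2 := Real.log_pos (by norm_num)
  have hc0 := c0_pos
  obtain ⟨A₂, h2⟩ := hM d hd (ε / (2 * (c0 * Real.log 2))) (by positivity)
  obtain ⟨c, A₃, hc, h3⟩ := hL d hd
  obtain ⟨A₄, h4⟩ := rpow_small hc (ε := ε / 84) (by positivity)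
  refine ⟨max (max A₁ A₂) (max (max A₃ A₄) (Real.exp 1)), fun A hA => ?_⟩
  have hA1 : A₁ ≤ A := le_trans (le_trans (le_max_left _ _) (le_max_left _ _)) hA
  have hA2 : A₂ ≤ A := le_trans (le_trans (le_max_right _ _) (le_max_left _ _)) hA
  have hA3 : A₃ ≤ A := le_trans (le_trans (le_trans (le_max_left _ _) (le_max_left _ _))
    (le_max_right _ _)) hA
  have hA4 : A₄ ≤ A := le_trans (le_trans (le_trans (le_max_right _ _) (le_max_left _ _))
    (le_max_right _ _)) hA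
  have hAe : Real.exp 1 ≤ A := le_trans (le_trans (le_max_right _ _) (le_max_right _ _)) hA
  have hA0 : 0 < A := lt_of_lt_of_le (Real.exp_pos 1) hAe
  obtain ⟨hlen, -, hr⟩ := ratio hAe
  have hlogA : 0 ≤ Real.log A / 20 + 1 := by
    have : 1 ≤ Real.log A := by
      rw [Real.le_log_iff_exp_le hA0]; exact hAe
    linarith
  have hsplit := split (d := d) hA0 (f := fun x => (Vs d (Wn d A) x : ℝ))
    (g := fun x => (((range (⌊Real.log A⌋₊ + 1)).filter
      (fun i => A ≤ ((Td d)^[i] x : ℤ) ∧ (((Td d)^[i] x : ℤ) : ℝ) < 2 * A)).card : ℝ))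
    hlogA (fun x => Nat.cast_nonneg _) (fun x hx hxl => by
      have h5 : ∃ i : ℕ, (i : ℝ) ≤ 9 / 10 * Real.log A ∧ (((Td d)^[i] x : ℤ) : ℝ) ≤ 2 * A := by
        by_contra hcon
        push Not at hcon
        exact hxl hcon
      have h6 := ((h1 A hA1 x hx).2 h5).1
      exact_mod_cast h6) (fun x hx => (h1 A hA1 x hx).1)
  have hsum := sum_hs_Pr d (Wn d A) (Ul A) (Ur A)
  have hmas := h2 A hA2
  have hlat := h3 A hA3
  have hsm := h4 A hA4
  have htot : ∑ a ∈ Wn d A, hm A (Pr d a) = 2 / len A * ∑ a ∈ Wn d A, hs (Pr d a) (Ul A) (Ur A) := by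
    unfold hm
    rw [mul_sum]
  rw [htot, hsum]
  have hlat' : hs (Lt d A) (Ul A) (Ur A) ≤ ε / 84 := le_trans hlat hsm
  have hlat0 : 0 ≤ hs (Lt d A) (Ul A) (Ur A) := hs_nonneg _ (Ul_pos hA0).le
  have h7 : 2 / len A * ((Real.log A / 20 + 1) * hs (Lt d A) (Ul A) (Ur A)) ≤ ε / 2 := by
    calc 2 / len A * ((Real.log A / 20 + 1) * hs (Lt d A) (Ul A) (Ur A))
        = (2 / len A * (Real.log A / 20 + 1)) * hs (Lt d A) (Ul A) (Ur A) := by ring
      _ ≤ 42 * (ε / 84) := mul_le_mul hr hlat' hlat0 (by norm_num)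
      _ = ε / 2 := by ring
  have h8 : 2 / len A * ((1 + ε / (2 * (c0 * Real.log 2))) * (len A * (Real.log 2 /
      Real.log (4 / 3)))) = c0 * Real.log 2 + ε / 2 := by
    have h9 : Real.log (4 / 3) ≠ 0 := (Real.log_pos (by norm_num)).ne'
    have h10 : c0 * Real.log 2 = 2 * (Real.log 2 / Real.log (4 / 3)) := by
      unfold c0; ring
    have h11 : 2 / len A * ((1 + ε / (2 * (c0 * Real.log 2))) * (len A * (Real.log 2 /
      Real.log (4 / 3)))) = (1 + ε / (2 * (c0 * Real.log 2))) * (2 * (Real.log 2 /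
      Real.log (4 / 3))) := by
      field_simp
    rw [h11, ← h10]
    have h12 : c0 * Real.log 2 ≠ 0 := by positivity
    field_simp
  have hpos : 0 ≤ 2 / len A := by positivity
  calc 2 / len A * ∑ x ∈ cls Set.univ (Ul A) (Ur A) 0 1 0, 1 / (x : ℝ) * (Vs d (Wn d A) x : ℝ)
      ≤ 2 / len A * ((1 + ε / (2 * (c0 * Real.log 2))) * (len A * (Real.log 2 /
          Real.log (4 / 3))) + (Real.log A / 20 + 1) * hs (Lt d A) (Ul A) (Ur A)) := by
        refine mul_le_mul_of_nonneg_left (le_trans hsplit ?_) hpos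
        exact add_le_add hmas le_rfl
    _ = c0 * Real.log 2 + ε / 2 + 2 / len A * ((Real.log A / 20 + 1) *
          hs (Lt d A) (Ul A) (Ur A)) := by
        rw [mul_add, h8]
    _ ≤ c0 * Real.log 2 + ε := by linarith

/-- **Job Tai.** -/
theorem tai (hv : S_Vis) (hP : S_Prs) (hL : S_Lat) : S_Tai := by
  intro d hd ε hε
  obtain ⟨A₁, h1⟩ := hv d hd
  obtain ⟨C, c, A₂, hc, hC, h2⟩ := hP d hd
  obtain ⟨c', A₃, hc', h3⟩ := hL d hd
  obtain ⟨A₄, h4⟩ := rpow_small hc (ε := ε / (120 * C)) (by positivity)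
  obtain ⟨A₅, h5⟩ := rpow_small hc' (ε := ε / 126) (by positivity)
  obtain ⟨L, hLe⟩ : ∃ L : ℕ, Real.exp (-c * L) ≤ ε / (120 * C) := by
    have ht : Tendsto (fun L : ℕ => Real.exp (-c * L)) atTop (𝓝 0) := by
      refine Real.tendsto_exp_atBot.comp ?_
      exact (tendsto_natCast_atTop_atTop (R := ℝ)).const_mul_atTop_of_neg (neg_lt_zero.2 hc)
    exact ((ht.eventually (ge_mem_nhds (by positivity : (0 : ℝ) < ε / (120 * C))))).exists
  refine ⟨L, max (max A₁ A₂) (max (max A₃ A₄) (max A₅ (Real.exp 1))), fun A hA M => ?_⟩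
  have hA1 : A₁ ≤ A := le_trans (le_trans (le_max_left _ _) (le_max_left _ _)) hA
  have hA2 : A₂ ≤ A := le_trans (le_trans (le_max_right _ _) (le_max_left _ _)) hA
  have hA3 : A₃ ≤ A := le_trans (le_trans (le_trans (le_max_left _ _) (le_max_left _ _))
    (le_max_right _ _)) hA
  have hA4 : A₄ ≤ A := le_trans (le_trans (le_trans (le_max_right _ _) (le_max_left _ _))
    (le_max_right _ _)) hA
  have hA5 : A₅ ≤ A := le_trans (le_trans (le_trans (le_max_left _ _) (le_max_right _ _))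
    (le_max_right _ _)) hA
  have hAe : Real.exp 1 ≤ A := le_trans (le_trans (le_trans (le_max_right _ _) (le_max_right _ _))
    (le_max_right _ _)) hA
  have hA0 : 0 < A := lt_of_lt_of_le (Real.exp_pos 1) hAe
  obtain ⟨hlen, hr1, hr⟩ := ratio hAe
  have hlogA : 0 ≤ Real.log A / 20 + 1 := by
    have : 1 ≤ Real.log A := by
      rw [Real.le_log_iff_exp_le hA0]; exact hAe
    linarith
  have hsplit := split (d := d) hA0 (f := fun x => ((Vs d (Wn d A) x - L : ℕ) : ℝ))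
    (g := fun x => ((((range (⌊Real.log A⌋₊ + 1)) ×ˢ (range (⌊Real.log A⌋₊ + 1))).filter
      (fun p : ℕ × ℕ =>
      p.1 + p.2 ≤ ⌊Real.log A⌋₊ ∧ L ≤ p.2 ∧ A ≤ ((Td d)^[p.1] x : ℤ) ∧ (((Td d)^[p.1] x : ℤ) : ℝ) < 2 * A ∧
      A ≤ ((Td d)^[p.1 + p.2] x : ℤ) ∧ (((Td d)^[p.1 + p.2] x : ℤ) : ℝ) < 2 * A)).card : ℝ))
    hlogA (fun x => Nat.cast_nonneg _) (fun x hx hxl => by
      have h5 : ∃ i : ℕ, (i : ℝ) ≤ 9 / 10 * Real.log A ∧ (((Td d)^[i] x : ℤ) : ℝ) ≤ 2 * A := by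
        by_contra hcon
        push Not at hcon
        exact hxl hcon
      have h6 := ((h1 A hA1 x hx).2 h5).2 L
      have h7 : Vs d (Wn d A) x - L ≤ _ := Nat.sub_le_iff_le_add'.2 h6
      exact_mod_cast h7) (fun x hx => by
      have h6 := (h1 A hA1 x hx).1
      have h7 : ((Vs d (Wn d A) x - L : ℕ) : ℝ) ≤ (Vs d (Wn d A) x : ℝ) := by
        exact_mod_cast Nat.sub_le _ _
      exact le_trans h7 h6)
  have hsum := sum_hs_Ly d (Wn d A) L M (a := Ul A) (b := Ur A) (Ul_pos hA0)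
  have hprs := h2 A hA2 L
  have hlat := h3 A hA3
  have htot : ∑ l ∈ Ioc L M, hm A (Ly d (Wn d A) l) =
      2 / len A * ∑ l ∈ Ioc L M, hs (Ly d (Wn d A) l) (Ul A) (Ur A) := by
    unfold hm
    rw [mul_sum]
  rw [htot]
  have hlat' : hs (Lt d A) (Ul A) (Ur A) ≤ ε / 126 := le_trans hlat (h5 A hA5)
  have hlat0 : 0 ≤ hs (Lt d A) (Ul A) (Ur A) := hs_nonneg _ (Ul_pos hA0).le
  have hpos : 0 ≤ 2 / len A := by positivity
  have h7 : 2 / len A * ((Real.log A / 20 + 1) * hs (Lt d A) (Ul A) (Ur A)) ≤ ε / 3 := by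
    calc 2 / len A * ((Real.log A / 20 + 1) * hs (Lt d A) (Ul A) (Ur A))
        = (2 / len A * (Real.log A / 20 + 1)) * hs (Lt d A) (Ul A) (Ur A) := by ring
      _ ≤ 42 * (ε / 126) := mul_le_mul hr hlat' hlat0 (by norm_num)
      _ = ε / 3 := by ring
  have h8 : 2 / len A * (C * (Real.exp (-c * L) + A ^ (-c)) * Real.log A) ≤ 2 * (ε / 3) := by
    have h9 : Real.exp (-c * L) + A ^ (-c) ≤ 2 * (ε / (120 * C)) := by
      have := h4 A hA4
      linarith
    have h10 : 0 ≤ Real.exp (-c * L) + A ^ (-c) := by positivity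
    calc 2 / len A * (C * (Real.exp (-c * L) + A ^ (-c)) * Real.log A)
        = (2 / len A * Real.log A) * (C * (Real.exp (-c * L) + A ^ (-c))) := by ring
      _ ≤ 40 * (C * (2 * (ε / (120 * C)))) :=
          mul_le_mul hr1 (mul_le_mul_of_nonneg_left h9 hC.le) (by positivity) (by norm_num)
      _ = 2 * (ε / 3) := by field_simp; ring
  calc 2 / len A * ∑ l ∈ Ioc L M, hs (Ly d (Wn d A) l) (Ul A) (Ur A)
      ≤ 2 / len A * (C * (Real.exp (-c * L) + A ^ (-c)) * Real.log A +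
          (Real.log A / 20 + 1) * hs (Lt d A) (Ul A) (Ur A)) := by
        refine mul_le_mul_of_nonneg_left (le_trans hsum (le_trans hsplit ?_)) hpos
        exact add_le_add hprs le_rfl
    _ = 2 / len A * (C * (Real.exp (-c * L) + A ^ (-c)) * Real.log A) +
          2 / len A * ((Real.log A / 20 + 1) * hs (Lt d A) (Ul A) (Ur A)) := by ring
    _ ≤ ε := by linarith

end Pool.Agent.Q196.PD
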